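import Mathlib

set_option autoImplicit false

namespace Pool.Agent.H.MP_8d5706_al

open Matrix

universe u

section LA
variable {K : Type u} [Field K] {ι κ : Type} [Fintype ι] [Fintype κ] [DecidableEq ι] [DecidableEq κ]

lemma RF (x : Matrix ι κ K) : ∃ (m : ℕ) (X : Matrix ι (Fin m) K) (Y : Matrix (Fin m) κ K)
    (X' : Matrix (Fin m) ι K) (Y' : Matrix κ (Fin m) K), X * Y = x ∧ X' * X = 1 ∧ Y * Y' = 1 := by
  let f := toLin' x
  let b := (Module.finBasis K (LinearMap.range f)).equivFun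
  obtain ⟨g, hg⟩ := f.rangeRestrict.exists_rightInverse_of_surjective f.range_rangeRestrict
  obtain ⟨h, hh⟩ := (LinearMap.range f).subtype.exists_leftInverse_of_injective
    (Submodule.ker_subtype _)
  refine ⟨_, LinearMap.toMatrix' ((LinearMap.range f).subtype ∘ₗ b.symm.toLinearMap),
    LinearMap.toMatrix' (b.toLinearMap ∘ₗ f.rangeRestrict), LinearMap.toMatrix' (b.toLinearMap ∘ₗ h),
    LinearMap.toMatrix' (g ∘ₗ b.symm.toLinearMap), ?_, ?_, ?_⟩ <;> rw [← LinearMap.toMatrix'_comp]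
  · rw [← LinearMap.toMatrix'_toLin' x]
    congr 1
    ext1 i; ext1; simp [f]
  · rw [LinearMap.comp_assoc, ← LinearMap.comp_assoc _ _ h, hh, ← LinearMap.toMatrix'_id]
    congr 1
    ext1 i; ext1; simp
  · rw [LinearMap.comp_assoc, ← LinearMap.comp_assoc _ g, hg, ← LinearMap.toMatrix'_id]
    congr 1
    ext1 i; ext1; simp

lemma reg (x : Matrix ι ι K) : ∃ y, x * y * x = x := by
  obtain ⟨m, X, Y, X', Y', rfl, h1, h2⟩ := RF x
  refine ⟨Y' * X', ?_⟩
  simp only [Matrix.mul_assoc]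
  rw [← Matrix.mul_assoc X', h1, Matrix.one_mul, ← Matrix.mul_assoc Y, h2, Matrix.one_mul]

lemma LA1 {x : Matrix ι ι K} (h : x * x = x) : ∃ (m : ℕ) (X : Matrix ι (Fin m) K)
    (Y : Matrix (Fin m) ι K), X * Y = x ∧ Y * X = 1 ∧ trace x = m := by
  obtain ⟨m, X, Y, X', Y', rfl, h1, h2⟩ := RF x
  have : Y * X = 1 := by
    have := congrArg (fun z => X' * z * Y') h
    simp only [Matrix.mul_assoc, h2, Matrix.mul_one] at this
    rwa [← Matrix.mul_assoc X', h1, Matrix.one_mul] at this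
  exact ⟨m, X, Y, rfl, this, by rw [trace_mul_comm, this]; simp⟩

lemma LA2 [CharZero K] {p : Matrix ι ι K} {q : Matrix κ κ K} (hp : p * p = p) (hq : q * q = q)
    (h : trace p = trace q) : ∃ (x : Matrix ι κ K) (y : Matrix κ ι K), x * y = p ∧ y * x = q := by
  obtain ⟨m, X, Y, rfl, a, b⟩ := LA1 hp
  obtain ⟨m', X', Y', rfl, a', b'⟩ := LA1 hq
  obtain rfl : m = m' := by rw [b, b'] at h; exact_mod_cast h
  refine ⟨X * Y', X' * Y, ?_, ?_⟩
  · rw [Matrix.mul_assoc, ← Matrix.mul_assoc Y', a', Matrix.one_mul]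
  · rw [Matrix.mul_assoc, ← Matrix.mul_assoc Y, a, Matrix.one_mul]

lemma comp_mul {μ ν : Type} [Fintype ν] (a : Matrix ι κ (Matrix ν ν K))
    (b : Matrix κ μ (Matrix ν ν K)) :
    comp _ _ _ _ K (a * b) = comp _ _ _ _ K a * comp _ _ _ _ K b := by
  ext ⟨i, j⟩ ⟨k, l⟩
  simp [Matrix.mul_apply, Fintype.sum_prod_type, Matrix.sum_apply]

lemma trace_comp {ν : Type} [Fintype ν] (a : Matrix ι ι (Matrix ν ν K)) :
    trace (comp _ _ _ _ K a) = ∑ i, trace (a i i) := by
  simp [trace, Fintype.sum_prod_type]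

lemma LA3 [CharZero K] {ν : Type} [Fintype ν] [DecidableEq ν] {p : Matrix ι ι (Matrix ν ν K)}
    {q : Matrix κ κ (Matrix ν ν K)} (hp : p * p = p) (hq : q * q = q)
    (h : ∑ i, trace (p i i) = ∑ i, trace (q i i)) :
    ∃ (x : Matrix ι κ (Matrix ν ν K)) (y : Matrix κ ι (Matrix ν ν K)), x * y = p ∧ y * x = q := by
  obtain ⟨x, y, a, b⟩ := LA2 (p := comp _ _ _ _ K p) (q := comp _ _ _ _ K q)
    (by rw [← comp_mul, hp]) (by rw [← comp_mul, hq]) (by rwa [trace_comp, trace_comp])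
  refine ⟨(comp _ _ _ _ K).symm x, (comp _ _ _ _ K).symm y, (comp _ _ _ _ K).injective ?_,
    (comp _ _ _ _ K).injective ?_⟩ <;> simp [comp_mul, a, b]

lemma LA4 {ν : Type} [Fintype ν] [DecidableEq ν] {p : Matrix ι ι (Matrix ν ν K)} (hp : p * p = p) :
    ∃ m : ℕ, ∑ i, trace (p i i) = m := by
  obtain ⟨m, -, -, -, -, h⟩ := LA1 (x := comp _ _ _ _ K p) (by rw [← comp_mul, hp])
  exact ⟨m, by rw [← h, trace_comp]⟩

end LA

section Ring
variable {R S : Type*} [Ring R] [Ring S] (β : R →+* S) (hβ : Function.Surjective β)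
  (hu : ∀ j, β j = 0 → IsUnit (1 + j))
include hu

lemma T1 {ι : Type} [Fintype ι] [DecidableEq ι] {w : Matrix ι ι R} (h : w.map β = 1) :
    IsUnit w := by
  have l : ∀ w : Matrix ι ι R, w.map β = 1 → ∃ z, z * w = 1 := by
    intro w h
    have : w - 1 ∈ ((⊥ : Ideal R).jacobson).matrix ι := fun i j => Ideal.mem_jacobson_iff.2 fun y => by
      obtain ⟨z, hz⟩ := (hu (y * (w - 1) i j) (by
        have : β (w i j) = (1 : Matrix ι ι S) i j := congrFun (congrFun h i) j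
        simp [this, one_apply, apply_ite β])).exists_left_inv
      exact ⟨z, by rw [Ideal.mem_bot, ← hz]; noncomm_ring⟩
    obtain ⟨z, hz⟩ := Ideal.mem_jacobson_iff.1 (Ideal.matrix_jacobson_le _ this) 1
    rw [Ideal.matrix_bot, Ideal.mem_bot] at hz
    exact ⟨z, by rw [← sub_eq_zero, ← hz]; noncomm_ring⟩
  obtain ⟨z, hz⟩ := l w h
  obtain ⟨y, hy⟩ := l z (by
    have := congrArg (·.map β) hz
    simpa [Matrix.map_mul, h] using this)
  have : y = w := by rw [← mul_one y, ← hz, ← mul_assoc, hy, one_mul]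
  exact ⟨⟨w, z, this ▸ hy, hz⟩, rfl⟩

include hβ

lemma T2 {ι κ : Type} [Fintype ι] [Fintype κ] [DecidableEq ι] [DecidableEq κ] {p : Matrix ι ι R}
    {q : Matrix κ κ R} (hp : p * p = p) (hq : q * q = q) {X : Matrix ι κ S} {Y : Matrix κ ι S}
    (h1 : X * Y = p.map β) (h2 : Y * X = q.map β) :
    ∃ (x : Matrix ι κ R) (y : Matrix κ ι R), x * y = p ∧ y * x = q := by
  choose σ hσ using hβ
  have m1 : (X.map σ).map β = X := by ext; simp [hσ]
  have m2 : (Y.map σ).map β = Y := by ext; simp [hσ]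
  have hp' : p.map β * p.map β = p.map β := by rw [← Matrix.map_mul, hp]
  have hq' : q.map β * q.map β = q.map β := by rw [← Matrix.map_mul, hq]
  have msub : ∀ {ι : Type} (a b : Matrix ι ι R), (a - b).map β = a.map β - b.map β :=
    fun a b => Matrix.map_sub _ (map_sub β) _ _
  have madd : ∀ {ι : Type} (a b : Matrix ι ι R), (a + b).map β = a.map β + b.map β :=
    fun a b => Matrix.map_add _ (map_add β) _ _
  set x := p * X.map σ * q with hx
  set y := q * Y.map σ * p with hy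
  have x1 : p * x = x := by rw [hx, ← Matrix.mul_assoc, ← Matrix.mul_assoc, hp]
  have x2 : x * q = x := by rw [hx, Matrix.mul_assoc, hq]
  have y1 : q * y = y := by rw [hy, ← Matrix.mul_assoc, ← Matrix.mul_assoc, hq]
  have y2 : y * p = y := by rw [hy, Matrix.mul_assoc, hp]
  have bx : x.map β = p.map β * X := by
    rw [hx, Matrix.map_mul, Matrix.map_mul, m1, ← h2, Matrix.mul_assoc, ← Matrix.mul_assoc X, h1,
      ← Matrix.mul_assoc, hp']
  have bY : y.map β = Y * p.map β := by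
    rw [hy, Matrix.map_mul, Matrix.map_mul, m2, ← h2, Matrix.mul_assoc Y, h1, Matrix.mul_assoc, hp']
  clear_value x y
  have w1 : (x * y + (1 - p)).map β = 1 := by
    rw [madd, msub, Matrix.map_mul, bx, bY, Matrix.mul_assoc, ← Matrix.mul_assoc X, h1, hp', hp']
    simp
  obtain ⟨w, hw⟩ := (T1 β hu w1).exists_right_inv
  have w2 : w.map β = 1 := by
    have := congrArg (·.map β) hw
    simp only [Matrix.map_mul, w1] at this
    simpa using this
  have e1 : x * (y * w) = p := by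
    have : p * (x * y + (1 - p)) = x * y := by
      rw [Matrix.mul_add, ← Matrix.mul_assoc, x1, Matrix.mul_sub, hp]; simp
    rw [← Matrix.mul_assoc, ← this, Matrix.mul_assoc, hw, Matrix.mul_one]
  refine ⟨x, y * w, e1, ?_⟩
  set q' := y * w * x with hq'
  have a1 : q * q' = q' := by rw [hq', ← Matrix.mul_assoc, ← Matrix.mul_assoc, y1]
  have a2 : q' * q = q' := by rw [hq', Matrix.mul_assoc, x2]
  have a3 : q' * q' = q' := by
    rw [hq', Matrix.mul_assoc, ← Matrix.mul_assoc x, e1, x1]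
  obtain ⟨v, hv⟩ := T1 β hu (w := 1 - (q - q')) (by
    rw [msub, msub, hq', Matrix.map_mul, Matrix.map_mul, w2, bx, bY, Matrix.mul_one, ← h1, ← h2,
      Matrix.mul_assoc, ← Matrix.mul_assoc (X * Y), h1, hp', ← h1, ← Matrix.mul_assoc,
      ← Matrix.mul_assoc, h2, Matrix.mul_assoc, h2]
    rw [← Matrix.map_mul, hq]
    simp)
  have : (v : Matrix κ κ R) * (q - q') = 0 := by
    rw [hv]
    simp only [sub_mul, mul_sub, one_mul, hq, a1, a2, a3]
    abel
  rw [Units.mul_right_eq_zero, sub_eq_zero] at this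
  exact this.symm

lemma T3 (hr : ∀ x : S, ∃ y, x * y * x = x)
    (hl : ∀ e : S, e * e = e → ∃ f : R, f * f = f ∧ β f = e) (x : R) :
    ∃ e : R, e * e = e ∧ (∃ a, e = x * a) ∧ ∃ b, 1 - e = (1 - x) * b := by
  obtain ⟨Y, hY⟩ := hr (β x)
  obtain ⟨y, rfl⟩ := hβ Y
  obtain ⟨e, e1, e2⟩ := hl (β x * β y) (by rw [← mul_assoc, hY])
  obtain ⟨u, hu1⟩ := hu (x * y - e) (by simp [e2])
  have u1 : β u = 1 := by simp [hu1, e2]
  have u2 : β (u⁻¹ : Rˣ) = 1 := by
    have := congrArg β u.mul_inv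
    rwa [map_mul, u1, one_mul, map_one] at this
  have f1 : u * e = x * y * e := by rw [hu1, add_mul, sub_mul, e1, one_mul]; abel
  set f := u * e * (u⁻¹ : Rˣ) with hf
  have f2 : f * f = f := by
    rw [hf, mul_assoc, ← mul_assoc ((u⁻¹ : Rˣ) : R), Units.inv_mul_cancel_left, ← mul_assoc,
      mul_assoc _ e e, e1]
  obtain ⟨w, hw⟩ := hu (f * x - x) (by simp [hf, u1, u2, e2, hY])
  have w1 : f * (x * (w⁻¹ : Rˣ)) + (1 - x) * (w⁻¹ : Rˣ) = 1 := by
    rw [← mul_assoc, ← add_mul, show f * x + (1 - x) = w by rw [hw]; abel, w.mul_inv]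
  refine ⟨f + f * (x * (w⁻¹ : Rˣ)) * (1 - f), ?_,
    ⟨y * e * (u⁻¹ : Rˣ) * (1 + (x * (w⁻¹ : Rˣ)) * (1 - f)), ?_⟩, (w⁻¹ : Rˣ) * (1 - f), ?_⟩
  · have : (1 - f) * f = 0 := by rw [sub_mul, f2, one_mul, sub_self]
    simp only [add_mul, mul_add, mul_assoc, this, ← mul_assoc (1 - f) f, ← mul_assoc f f, f2]
    simp
  · have : x * (y * e * (u⁻¹ : Rˣ)) = f := by rw [hf, f1]; simp only [mul_assoc]
    rw [← mul_assoc x, this, mul_add, mul_one, mul_assoc]
  · rw [← mul_assoc (1 - x), eq_sub_of_add_eq' w1]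
    noncomm_ring

end Ring

end Pool.Agent.H.MP_8d5706_al
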