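import Pool.Agent.H.MP_8d5706_al.A

set_option autoImplicit false

namespace Pool.Agent.H.MP_8d5706_al

open MvPolynomial
open scoped Classical

universe u

section Gen
variable {P K : Type u} [CommRing P] [IsDomain P] [Field K] [Algebra P K] [IsFractionRing P K]

abbrev ι : P →+* K := algebraMap P K

omit [IsDomain P] in
lemma ι_inj : Function.Injective (ι : P →+* K) := IsFractionRing.injective _ _

omit [IsDomain P] in
lemma ι_ne {s : P} (h : s ≠ 0) : (ι s : K) ≠ 0 := (map_ne_zero_iff _ ι_inj).2 h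

variable (K) in
noncomputable def Γ (ρ : P →+* P) : Subring (K × K) where
  carrier := {a | ∃ p s, ρ s ≠ 0 ∧ a.1 * ι s = ι p ∧ a.2 * ι (ρ s) = ι (ρ p)}
  one_mem' := ⟨1, 1, by simp⟩
  zero_mem' := ⟨0, 1, by simp⟩
  mul_mem' := by
    rintro a b ⟨p, s, h1, h2, h3⟩ ⟨q, t, h4, h5, h6⟩
    refine ⟨p * q, s * t, by simp [h1, h4], ?_, ?_⟩ <;> simp only [map_mul, Prod.fst_mul, Prod.snd_mul]
    · rw [← h2, ← h5]; ring
    · rw [← h3, ← h6]; ring
  add_mem' := by
    rintro a b ⟨p, s, h1, h2, h3⟩ ⟨q, t, h4, h5, h6⟩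
    refine ⟨p * t + q * s, s * t, by simp [h1, h4], ?_, ?_⟩ <;>
      simp only [map_mul, map_add, Prod.fst_add, Prod.snd_add]
    · rw [← h2, ← h5]; ring
    · rw [← h3, ← h6]; ring
  neg_mem' := by
    rintro a ⟨p, s, h1, h2, h3⟩
    exact ⟨-p, s, h1, by simp [h2], by simp [h3]⟩

lemma Γ_fun {ρ : P →+* P} {a b c : K} (h1 : (a, b) ∈ Γ K ρ) (h2 : (a, c) ∈ Γ K ρ) : b = c := by
  obtain ⟨p, s, a1, a2, a3⟩ := sub_mem h1 h2
  simp only [Prod.mk_sub_mk, sub_self, zero_mul] at a2 a3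
  obtain rfl : p = 0 := ι_inj (K := K) (by rw [← a2, map_zero])
  simpa [ι_ne a1, sub_eq_zero] using a3

lemma Γ_unit {ρ : P →+* P} (a : Γ K ρ) (h : a.1.2 ≠ 0) : IsUnit a := by
  obtain ⟨⟨a, b⟩, p, s, a1, a2, a3⟩ := a
  have h1 : ρ p ≠ 0 := fun e => mul_ne_zero h (ι_ne a1) (by rw [a3, e, map_zero])
  have h2 : a ≠ 0 := fun e => ι_ne (K := K) (s := p) (fun e => h1 (by rw [e, map_zero]))
    (by rw [← a2, e, zero_mul])
  simp only at h a2 a3
  refine IsUnit.of_mul_eq_one ⟨(a⁻¹, b⁻¹), s, p, h1, ?_, ?_⟩ (Subtype.ext ?_)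
  · rw [← a2, inv_mul_cancel_left₀ h2]
  · rw [← a3, inv_mul_cancel_left₀ h]
  · simp [h, h2, Prod.ext_iff]

lemma CRT {I : Type*} (T : Finset I) (ρ : I → P →+* P) (hs : ∀ i p, ∃ q, ρ i q = p) (c : I → P)
    (c1 : ∀ i, ρ i (c i) ≠ 0) (c2 : ∀ i, ∀ j ∈ T, j ≠ i → ρ j (c i) = 0) (b : I → K) :
    ∃ a, ∀ i ∈ T, (a, b i) ∈ Γ K (ρ i) := by
  have : ∀ i ∈ T, ∃ a, (a, b i) ∈ Γ K (ρ i) ∧ ∀ j ∈ T, j ≠ i → (a, 0) ∈ Γ K (ρ j) := by
    intro i hi
    obtain ⟨p, q, hq, e⟩ := IsFractionRing.div_surjective (P) (b i)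
    obtain ⟨p, rfl⟩ := hs i p
    obtain ⟨q, rfl⟩ := hs i q
    replace hq := nonZeroDivisors.ne_zero hq
    have s1 : ρ i (c i * q + ∑ j ∈ T.erase i, c j) = ρ i (c i) * ρ i q := by
      rw [map_add, map_sum, Finset.sum_eq_zero fun j hj =>
        c2 j i hi (Finset.ne_of_mem_erase hj).symm, add_zero, map_mul]
    have s2 : (ι (c i * q + ∑ j ∈ T.erase i, c j) : K) ≠ 0 := ι_ne fun h => by
      rw [h, map_zero] at s1
      exact mul_ne_zero (c1 i) hq s1.symm
    refine ⟨ι (c i * p) / ι (c i * q + ∑ j ∈ T.erase i, c j), ⟨c i * p, _, ?_,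
      div_mul_cancel₀ _ s2, ?_⟩, fun j hj h => ⟨c i * p, _, ?_, div_mul_cancel₀ _ s2, ?_⟩⟩
    · rw [s1]; exact mul_ne_zero (c1 i) hq
    · rw [s1, ← e]
      have := ι_ne (K := K) hq
      simp only [map_mul]
      field_simp
    · rw [map_add, map_mul, c2 i j hj h, zero_mul, zero_add, map_sum,
        Finset.sum_eq_single_of_mem j (Finset.mem_erase.2 ⟨h, hj⟩)
          fun l _ hl => c2 l j hj hl.symm]
      exact c1 j
    · simp [c2 i j hj h]
  choose! a a1 a2 using this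
  refine ⟨∑ i ∈ T, a i, fun i hi => ?_⟩
  have : ∑ j ∈ T, (a j, if j = i then b i else 0) ∈ Γ K (ρ i) := sum_mem fun j hj => by
    split_ifs with h
    · exact h ▸ a1 j hj
    · exact a2 j hj i hi (Ne.symm h)
  convert this using 1
  ext <;> simp [Prod.fst_sum, Prod.snd_sum, hi]

section Mat
open Matrix
variable {α β γ : Type} {ρ : P →+* P}

def Gm (ρ : P →+* P) (a b : Matrix α β K) : Prop := ∀ i j, (a i j, b i j) ∈ Γ K ρ

lemma Gm.mul [Fintype β] {a b : Matrix α β K} {c d : Matrix β γ K} (h : Gm ρ a b)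
    (h' : Gm ρ c d) : Gm ρ (a * c) (b * d) := fun i j => by
  have := sum_mem (S := Γ K ρ) (t := Finset.univ) fun l _ => mul_mem (h i l) (h' l j)
  convert this using 1
  ext <;> simp [Matrix.mul_apply, Prod.fst_sum, Prod.snd_sum]

lemma Gm.one [DecidableEq α] : Gm ρ (1 : Matrix α α K) 1 := fun i j => by
  rw [one_apply]
  split_ifs
  exacts [one_mem (Γ K ρ), zero_mem (Γ K ρ)]

lemma Gm.trace [Fintype α] {a b : Matrix α α K} (h : Gm ρ a b) : (trace a, trace b) ∈ Γ K ρ := by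
  have := sum_mem (S := Γ K ρ) (t := Finset.univ) fun l _ => h l l
  convert this using 1
  ext <;> simp [Matrix.trace, Prod.fst_sum, Prod.snd_sum]

lemma Gm.inv [Fintype α] [DecidableEq α] {a b : Matrix α α K} (h : Gm ρ a b) (hb : IsUnit b) :
    IsUnit a ∧ Gm ρ a⁻¹ b⁻¹ := by
  let A : Matrix α α (Γ K ρ) := fun i j => ⟨_, h i j⟩
  let p1 : Γ K ρ →+* K := (RingHom.fst _ _).comp (Γ K ρ).subtype
  let p2 : Γ K ρ →+* K := (RingHom.snd _ _).comp (Γ K ρ).subtype
  have hA : IsUnit A := (isUnit_iff_isUnit_det _).2 (Γ_unit _ (by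
    have : p2 A.det = b.det := p2.map_det A
    exact fun e => ((isUnit_iff_isUnit_det _).1 hb).ne_zero (this.symm.trans e)))
  obtain ⟨B, hB⟩ := hA.exists_right_inv
  have e1 : a * B.map p1 = 1 := by
    show A.map p1 * _ = _
    simpa [Matrix.map_mul] using congrArg (·.map p1) hB
  have e2 : b * B.map p2 = 1 := by
    show A.map p2 * _ = _
    simpa [Matrix.map_mul] using congrArg (·.map p2) hB
  rw [inv_eq_right_inv e1, inv_eq_right_inv e2]
  exact ⟨IsUnit.of_mul_eq_one _ e1, fun i j => (B i j).2⟩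

end Mat

variable {P' K' : Type u} [CommRing P'] [IsDomain P'] [Field K'] [Algebra P' K']
  [IsFractionRing P' K']

variable (K K') in
noncomputable def renG (j : P →+* P') (hj : Function.Injective j) : K →+* K' :=
  IsFractionRing.lift (g := (algebraMap P' K').comp j) ((IsFractionRing.injective P' K').comp hj)

lemma renG_ι (j : P →+* P') (hj : Function.Injective j) (p : P) :
    renG K K' j hj (ι p) = ι (j p) := IsFractionRing.lift_algebraMap _ _

lemma renG_id (j : P →+* P) (hj : Function.Injective j) (h : ∀ p, j p = p) :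
    renG K K j hj = RingHom.id K :=
  IsFractionRing.ringHom_ext (A := P) fun p => by rw [renG_ι, h]; rfl

lemma renG_comp {P'' K'' : Type u} [CommRing P''] [IsDomain P''] [Field K''] [Algebra P'' K'']
    [IsFractionRing P'' K''] (j : P →+* P') (hj : Function.Injective j) (k : P' →+* P'')
    (hk : Function.Injective k) (l : P →+* P'') (hl : Function.Injective l)
    (h : ∀ p, l p = k (j p)) : renG K K'' l hl = (renG K' K'' k hk).comp (renG K K' j hj) :=
  IsFractionRing.ringHom_ext (A := P) fun p => by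
    rw [RingHom.comp_apply, renG_ι, renG_ι, renG_ι, h]

lemma Γ_renG (j : P →+* P') (hj : Function.Injective j) {ρ : P →+* P} {ρ' : P' →+* P'}
    (e : ∀ p, ρ' (j p) = j (ρ p)) {a b : K} (h : (a, b) ∈ Γ K ρ) :
    (renG K K' j hj a, renG K K' j hj b) ∈ Γ K' ρ' := by
  obtain ⟨p, s, a1, a2, a3⟩ := h
  refine ⟨j p, j s, ?_, ?_, ?_⟩
  · rw [e]
    exact (map_ne_zero_iff _ hj).2 a1
  · rw [← renG_ι (K := K) j hj, ← renG_ι (K := K) j hj, ← a2, map_mul]
  · rw [e, e, ← renG_ι (K := K) j hj, ← renG_ι (K := K) j hj, ← a3, map_mul]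

end Gen

end Pool.Agent.H.MP_8d5706_al
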