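import Pool.Agent.H.MP_8d5706_al.B

set_option autoImplicit false

namespace Pool.Agent.H.MP_8d5706_al

open MvPolynomial
open scoped Classical

universe u

abbrev P (M : Type u) := MvPolynomial (M × ℕ) ℚ

structure FF (R : Type u) [CommRing R] where
  K : Type u
  f : Field K
  a : Algebra R K
  i : IsFractionRing R K

lemma ex_FF (R : Type u) [CommRing R] [IsDomain R] : Nonempty (FF R) :=
  ⟨⟨FractionRing R, inferInstance, inferInstance, inferInstance⟩⟩

noncomputable def K (M : Type u) : Type u := (ex_FF (P M)).some.K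
noncomputable instance (M : Type u) : Field (K M) := (ex_FF (P M)).some.f
noncomputable instance (M : Type u) : Algebra (P M) (K M) := (ex_FF (P M)).some.a
instance (M : Type u) : IsFractionRing (P M) (K M) := (ex_FF (P M)).some.i
instance (M : Type u) : CharZero (K M) :=
  charZero_of_injective_algebraMap (IsFractionRing.injective (P M) (K M))

variable {M N : Type u}

noncomputable def sp (ρ : M → ℕ) : P M →ₐ[ℚ] P M :=
  aeval fun v => if v.2 < ρ v.1 then X v else if v.2 = ρ v.1 then 0 else X (v.1, v.2 - 1)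

lemma sp_surj (ρ : M → ℕ) (p : P M) : ∃ q, sp ρ q = p := by
  have : (sp ρ).comp (rename fun v => if v.2 < ρ v.1 then v else (v.1, v.2 + 1)) =
      AlgHom.id ℚ (P M) := algHom_ext fun v => by
    simp only [AlgHom.comp_apply, rename_X, sp, aeval_X, AlgHom.id_apply]
    by_cases h : v.2 < ρ v.1
    · simp [h]
    · rw [if_neg h, if_neg (by simp; omega), if_neg (by simp; omega)]; rfl
  exact ⟨_, AlgHom.congr_fun this p⟩

lemma sp_X_ne {ρ : M → ℕ} {x : M} {j : ℕ} (h : j ≠ ρ x) : sp ρ (X (x, j)) ≠ 0 := by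
  simp only [sp, aeval_X, if_neg h]
  split_ifs <;> exact X_ne_zero _

lemma sp_X (ρ : M → ℕ) (x : M) : sp ρ (X (x, ρ x)) = 0 := by simp [sp]

lemma CRTm {I : Type*} {α β : Type} (T : Finset I) (ρ : I → M → ℕ) (hρ : Function.Injective ρ)
    (b : I → Matrix α β (K M)) : ∃ a, ∀ i ∈ T, Gm (sp (ρ i) : P M →+* P M) a (b i) := by
  have : ∀ i, ∃ c : P M, sp (ρ i) c ≠ 0 ∧ ∀ j ∈ T, j ≠ i → sp (ρ j) c = 0 := by
    intro i
    choose x hx using fun j (h : j ≠ i) => Function.ne_iff.1 (hρ.ne h)
    refine ⟨∏ j ∈ T, if h : j ≠ i then X (x j h, ρ j (x j h)) else 1, ?_, fun j hj h => ?_⟩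
    · rw [map_prod, Finset.prod_ne_zero_iff]
      intro j _
      split_ifs with h
      · exact sp_X_ne (hx j h)
      · simp
    · rw [map_prod]
      exact Finset.prod_eq_zero hj (by rw [dif_pos h, sp_X])
  choose c c1 c2 using this
  choose a ha using fun k l => CRT T (fun i => (sp (ρ i) : P M →+* P M)) (fun i => sp_surj (ρ i))
    c c1 c2 fun i => b i k l
  exact ⟨a, fun i hi k l => ha k l i hi⟩

noncomputable def rn (f : M → N) : P M →+* P N := (rename (Prod.map f id) : P M →ₐ[ℚ] P N)

lemma rn_inj {f : M → N} (hf : Function.Injective f) : Function.Injective (rn f) :=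
  rename_injective _ (hf.prodMap Function.injective_id)

noncomputable def ren (f : M → N) (hf : Function.Injective f) : K M →+* K N :=
  renG (K M) (K N) (rn f) (rn_inj hf)

lemma ren_id (h : Function.Injective fun x : M => x) : ren (fun x : M => x) h = RingHom.id _ :=
  renG_id _ _ fun p => rename_id_apply p

lemma ren_comp {Q : Type u} (f : M → N) (hf : Function.Injective f) (g : N → Q)
    (hg : Function.Injective g) (h : Function.Injective fun x => g (f x)) :
    ren (fun x => g (f x)) h = (ren g hg).comp (ren f hf) :=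
  renG_comp _ _ _ _ _ _ fun p => (rename_rename (Prod.map f id) (Prod.map g id) p).symm

lemma sp_ren (f : M → N) (ρ : N → ℕ) (p : P M) :
    sp ρ (rename (Prod.map f id) p) = rename (Prod.map f id) (sp (fun x => ρ (f x)) p) := by
  have : (sp ρ).comp (rename (Prod.map f id)) =
      (rename (Prod.map f id)).comp (sp fun x => ρ (f x)) := algHom_ext fun v => by
    simp only [AlgHom.comp_apply, rename_X, sp, aeval_X, Prod.map_fst, Prod.map_snd, id]
    split_ifs <;> simp [Prod.map]
  exact AlgHom.congr_fun this p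

lemma Γ_ren (f : M → N) (hf : Function.Injective f) {ρ : N → ℕ} {a b : K M}
    (h : (a, b) ∈ Γ (K M) (sp (fun x => ρ (f x)) : P M →+* P M)) :
    (ren f hf a, ren f hf b) ∈ Γ (K N) (sp ρ : P N →+* P N) :=
  Γ_renG _ _ (fun p => sp_ren f ρ p) h

end Pool.Agent.H.MP_8d5706_al
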