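import Pool.Agent.H.MP_8d5706_al.C

set_option autoImplicit false

namespace Pool.Agent.H.MP_8d5706_al

open Matrix
open scoped Classical

universe u

noncomputable def blk {R : Type u} [Ring R] {a b c : ℕ} (h : a + b = c) :
    Matrix (Fin a) (Fin a) R × Matrix (Fin b) (Fin b) R →+* Matrix (Fin c) (Fin c) R where
  toFun x := (fromBlocks x.1 0 0 x.2).submatrix (finSumFinEquiv.trans (finCongr h)).symm
    (finSumFinEquiv.trans (finCongr h)).symm
  map_one' := by rw [Prod.fst_one, Prod.snd_one, fromBlocks_one]; exact submatrix_one_equiv _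
  map_zero' := by simp
  map_mul' x y := by rw [submatrix_mul_equiv, fromBlocks_multiply]; simp
  map_add' x y := by
    have := fromBlocks_add x.1 0 0 x.2 y.1 0 0 y.2
    rw [add_zero, add_zero] at this
    rw [Prod.fst_add, Prod.snd_add, ← this]
    rfl

lemma trace_blk {R : Type u} [Ring R] {a b c : ℕ} (h : a + b = c) (x : Matrix (Fin a) (Fin a) R)
    (y : Matrix (Fin b) (Fin b) R) : trace (blk h (x, y)) = trace x + trace y := by
  subst h
  simp [blk, trace, Fin.sum_univ_add]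

variable {M : Type u} [AddCommMonoid M] (u : M)

abbrev Mt (r : M →+ ℕ) := Matrix (Fin (r u)) (Fin (r u)) (K M)

noncomputable abbrev σ (r : M →+ ℕ) : P M →+* P M := sp r

noncomputable def Ψ : Subring (∀ r : M →+ ℕ, Mt u r) where
  carrier := {a | ∀ r s : M →+ ℕ, r ≠ 0 → s ≠ 0 → Gm (σ r) (a (r + s)) (blk rfl (a r, a s))}
  one_mem' r s _ _ := (map_one (blk (R := K M) (a := r u) (b := s u) rfl)).symm ▸ Gm.one
  zero_mem' r s _ _ i j := (map_zero (blk (R := K M) (a := r u) (b := s u) rfl)).symm ▸ zero_mem _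
  mul_mem' := fun {a b} ha hb r s h1 h2 =>
    (map_mul (blk rfl) (a r, a s) (b r, b s)).symm ▸ (ha r s h1 h2).mul (hb r s h1 h2)
  add_mem' := fun {a b} ha hb r s h1 h2 i j =>
    (map_add (blk rfl) (a r, a s) (b r, b s)).symm ▸ add_mem (ha r s h1 h2 i j) (hb r s h1 h2 i j)
  neg_mem' := fun {a} ha r s h1 h2 i j =>
    (map_neg (blk rfl) (a r, a s)).symm ▸ neg_mem (ha r s h1 h2 i j)

def Basic (r : M →+ ℕ) : Prop := ¬∃ r1 r2, r1 + r2 = r ∧ r1 ≠ 0 ∧ r2 ≠ 0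

noncomputable def evr (r : M →+ ℕ) : Ψ u →+* Mt u r :=
  (Pi.evalRingHom _ r).comp (Ψ u).subtype

noncomputable def β : Ψ u →+* ∀ r : {r // Basic r}, Mt u r.1 := RingHom.pi fun r => evr u r.1

structure Ok : Prop where
  fin : ∀ r : M →+ ℕ, {r' | ∃ s, r' + s = r}.Finite
  pos : ∀ r : M →+ ℕ, r ≠ 0 → 0 < r u

variable {u}

lemma CRTr (H : Ok u) (r : M →+ ℕ) {α γ : Type}
    (V : ∀ r1 r2, r1 + r2 = r → Matrix α γ (K M)) :
    ∃ a, ∀ r1 r2 h, Gm (σ r1) a (V r1 r2 h) := by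
  obtain ⟨a, ha⟩ := CRTm (H.fin r).toFinset (fun r : M →+ ℕ => (r : M → ℕ)) DFunLike.coe_injective
    fun r1 => if h : ∃ s, r1 + s = r then V r1 _ h.choose_spec else 0
  refine ⟨a, fun r1 r2 h => ?_⟩
  have h' : ∃ s, r1 + s = r := ⟨r2, h⟩
  have := ha r1 ((H.fin r).mem_toFinset.2 h')
  rw [dif_pos h'] at this
  have e : h'.choose = r2 := by
    ext x
    exact add_left_cancel (DFunLike.congr_fun (h'.choose_spec.trans h.symm) x)
  subst e
  exact this

lemma lt_of (H : Ok u) {r1 r2 r : M →+ ℕ} (h : r1 + r2 = r) (h1 : r1 ≠ 0) (h2 : r2 ≠ 0) :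
    r1 u < r u ∧ r2 u < r u := by
  have := H.pos _ h1
  have := H.pos _ h2
  subst h
  simp only [AddMonoidHom.add_apply]
  omega

theorem REC (H : Ok u) (Q : ∀ r, Mt u r → Prop)
    (step : ∀ r (b : ∀ r, Mt u r), (∀ r' : M →+ ℕ, r' u < r u → Q r' (b r')) → ∃ a, Q r a ∧
      ∀ r1 r2 (h : r1 + r2 = r), r1 ≠ 0 → r2 ≠ 0 →
        Gm (σ r1) a (blk (DFunLike.congr_fun h u) (b r1, b r2))) :
    ∃ a : Ψ u, ∀ r, Q r (a.1 r) := by
  let F : ∀ r : M →+ ℕ, (∀ r, Mt u r) → Mt u r := fun r b => Classical.epsilon fun a => Q r a ∧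
      ∀ r1 r2 (h : r1 + r2 = r), r1 ≠ 0 → r2 ≠ 0 →
        Gm (σ r1) a (blk (DFunLike.congr_fun h u) (b r1, b r2))
  let a : ∀ r, Mt u r := (measure fun r : M →+ ℕ => r u).wf.fix fun r ih =>
    F r fun r' => if h : r' u < r u then ih r' h else 0
  have e : ∀ r, a r = F r fun r' => if r' u < r u then a r' else 0 := fun r =>
    WellFounded.fix_eq _ _ r
  have key : ∀ n, ∀ r : M →+ ℕ, r u = n → Q r (a r) ∧ ∀ r1 r2 (h : r1 + r2 = r), r1 ≠ 0 → r2 ≠ 0 →
      Gm (σ r1) (a r) (blk (DFunLike.congr_fun h u) (a r1, a r2)) := by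
    intro n
    induction n using Nat.strong_induction_on with
    | _ n ih =>
      rintro r rfl
      have := Classical.epsilon_spec (step r (fun r' => if r' u < r u then a r' else 0)
        fun r' h => by simp only [if_pos h]; exact (ih _ h r' rfl).1)
      rw [e r]
      refine ⟨this.1, fun r1 r2 h h1 h2 => ?_⟩
      have h3 := this.2 r1 r2 h h1 h2
      simp only [if_pos (lt_of H h h1 h2).1, if_pos (lt_of H h h1 h2).2] at h3
      exact h3
  exact ⟨⟨a, fun r s h1 h2 => (key _ _ rfl).2 r s rfl h1 h2⟩, fun r => (key _ r rfl).1⟩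

lemma β_surj (H : Ok u) : Function.Surjective (β u) := by
  intro g
  obtain ⟨a, ha⟩ := REC H (fun r a => ∀ h : Basic r, a = g ⟨r, h⟩) fun r b _ => by
    by_cases h : Basic r
    · exact ⟨g ⟨r, h⟩, fun _ => rfl, fun r1 r2 e h1 h2 => absurd ⟨r1, r2, e, h1, h2⟩ h⟩
    · obtain ⟨a, ha⟩ := CRTr H r fun r1 r2 e => blk (DFunLike.congr_fun e u) (b r1, b r2)
      exact ⟨a, fun h' => absurd h' h, fun r1 r2 e _ _ => ha r1 r2 e⟩
  exact ⟨a, funext fun r => ha r.1 r.2⟩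

lemma β_unit (H : Ok u) (j : Ψ u) (hj : β u j = 0) : IsUnit (1 + j) := by
  set w := 1 + j with hw
  have key : ∀ n, ∀ r : M →+ ℕ, r u = n → IsUnit (w.1 r) := by
    intro n
    induction n using Nat.strong_induction_on with
    | _ n ih =>
      rintro r rfl
      by_cases h : Basic r
      · have : j.1 r = 0 := congrFun hj ⟨r, h⟩
        simp [hw, this]
      · obtain ⟨r1, r2, rfl, h1, h2⟩ := not_not.1 h
        exact ((w.2 r1 r2 h1 h2).inv (IsUnit.map _ (Prod.isUnit_iff.2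
          ⟨ih _ (lt_of H rfl h1 h2).1 _ rfl, ih _ (lt_of H rfl h1 h2).2 _ rfl⟩))).1
  have k := fun r => (isUnit_iff_isUnit_det _).1 (key _ r rfl)
  refine ⟨⟨w, ⟨fun r => (w.1 r)⁻¹, fun r s h1 h2 => ?_⟩,
    Subtype.ext (funext fun r => mul_nonsing_inv _ (k r)),
    Subtype.ext (funext fun r => nonsing_inv_mul _ (k r))⟩, rfl⟩
  have := ((w.2 r s h1 h2).inv (IsUnit.map _ (Prod.isUnit_iff.2 ⟨key _ _ rfl, key _ _ rfl⟩))).2
  rwa [inv_eq_right_inv (A := blk rfl (w.1 r, w.1 s)) (B := blk rfl ((w.1 r)⁻¹, (w.1 s)⁻¹)) (by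
    rw [← map_mul, Prod.mk_mul_mk, mul_nonsing_inv _ (k r), mul_nonsing_inv _ (k s)]
    exact map_one _)] at this

lemma β_lift (H : Ok u) (g : ∀ r : {r // Basic r}, Mt u r.1) (hg : g * g = g) (x : M)
    (hx : ∀ r, trace (g r) = r.1 x) :
    ∃ e : Ψ u, e * e = e ∧ β u e = g ∧ ∀ r, trace (e.1 r) = r x := by
  obtain ⟨a, ha⟩ := REC H (fun r a => a * a = a ∧ trace a = r x ∧ ∀ h : Basic r, a = g ⟨r, h⟩)
    fun r b hb => by
    by_cases h : Basic r
    · exact ⟨g ⟨r, h⟩, ⟨congrFun hg ⟨r, h⟩, hx ⟨r, h⟩, fun _ => rfl⟩,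
        fun r1 r2 e h1 h2 => absurd ⟨r1, r2, e, h1, h2⟩ h⟩
    have : ∀ r1 r2 (e : r1 + r2 = r), ∃ (X : Matrix (Fin (r u)) (Fin (r x)) (K M))
        (Y : Matrix (Fin (r x)) (Fin (r u)) (K M)), r1 ≠ 0 → r2 ≠ 0 →
        X * Y = blk (DFunLike.congr_fun e u) (b r1, b r2) ∧ Y * X = 1 := by
      intro r1 r2 e
      by_cases h1 : r1 ≠ 0 ∧ r2 ≠ 0
      · obtain ⟨a1, a2, -⟩ := hb r1 (lt_of H e h1.1 h1.2).1
        obtain ⟨b1, b2, -⟩ := hb r2 (lt_of H e h1.1 h1.2).2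
        obtain ⟨X, Y, h2⟩ := LA2 (p := blk (DFunLike.congr_fun e u) (b r1, b r2))
          (q := (1 : Matrix (Fin (r x)) (Fin (r x)) (K M)))
          (by rw [← map_mul, Prod.mk_mul_mk, a1, b1]) (mul_one _)
          (by rw [trace_blk, a2, b2, ← e]; simp)
        exact ⟨X, Y, fun _ _ => h2⟩
      · exact ⟨0, 0, fun a b => absurd ⟨a, b⟩ h1⟩
    choose X Y hXY using this
    obtain ⟨x', hx'⟩ := CRTr H r X
    obtain ⟨y', hy'⟩ := CRTr H r Y
    have w : ∀ r1 r2 (e : r1 + r2 = r), r1 ≠ 0 → r2 ≠ 0 →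
        IsUnit (y' * x') ∧ Gm (σ r1) (y' * x')⁻¹ 1 := fun r1 r2 e h1 h2 => by
      have := (hy' r1 r2 e).mul (hx' r1 r2 e)
      rw [(hXY r1 r2 e h1 h2).2] at this
      simpa using this.inv isUnit_one
    obtain ⟨r1, r2, e, h1, h2⟩ := not_not.1 h
    have k := (isUnit_iff_isUnit_det _).1 (w r1 r2 e h1 h2).1
    refine ⟨x' * (y' * x')⁻¹ * y', ⟨?_, ?_, fun h' => absurd h' h⟩, fun r1 r2 e h1 h2 => ?_⟩
    · simp only [Matrix.mul_assoc]
      rw [← Matrix.mul_assoc y', ← Matrix.mul_assoc (y' * x'), mul_nonsing_inv _ k, Matrix.one_mul]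
    · rw [trace_mul_comm, ← Matrix.mul_assoc, mul_nonsing_inv _ k]; simp
    · have := ((hx' r1 r2 e).mul (w r1 r2 e h1 h2).2).mul (hy' r1 r2 e)
      rwa [Matrix.mul_one, (hXY r1 r2 e h1 h2).1] at this
  exact ⟨a, Subtype.ext (funext fun r => (ha r).1), funext fun r => (ha r.1).2.2 r.2,
    fun r => (ha r).2.1⟩

noncomputable def τ {ι : Type} [Fintype ι] (p : Matrix ι ι (Ψ u)) (r : M →+ ℕ) : K M :=
  ∑ i, trace ((p i i).1 r)

lemma τ_zero {ι : Type} [Fintype ι] (p : Matrix ι ι (Ψ u)) : τ p 0 = 0 :=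
  Finset.sum_eq_zero fun _ _ => Finset.sum_eq_zero fun i _ => Fin.elim0 i

lemma τ_nat {ι : Type} [Fintype ι] [DecidableEq ι] {p : Matrix ι ι (Ψ u)} (hp : p * p = p) :
    ∃ G : (M →+ ℕ) →+ ℕ, ∀ r, τ p r = G r := by
  choose G hG using fun r => LA4 (p := p.map (evr u r)) (by rw [← Matrix.map_mul, hp])
  have hG' : ∀ r, τ p r = G r := hG
  have z : G 0 = 0 := by
    have := hG' 0
    rw [τ_zero] at this
    exact_mod_cast this.symm
  refine ⟨⟨⟨G, z⟩, fun r s => ?_⟩, hG'⟩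
  by_cases h1 : r = 0
  · simp [h1, z]
  by_cases h2 : s = 0
  · simp [h2, z]
  have a1 : ∑ i, (trace ((p i i).1 (r + s)), trace ((p i i).1 r) + trace ((p i i).1 s)) ∈
      Γ (K M) (σ r) := sum_mem fun i _ => by
    rw [← trace_blk rfl]; exact ((p i i).2 r s h1 h2).trace
  have a2 : (τ p (r + s), τ p r + τ p s) ∈ Γ (K M) (σ r) := by
    convert a1 using 1
    ext <;> simp [τ, Prod.fst_sum, Prod.snd_sum, Finset.sum_add_distrib]
  rw [hG', hG', hG'] at a2
  exact_mod_cast Γ_fun (natCast_mem (Γ (K M) (σ r)) (G (r + s))) a2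

variable {N : Type u} [AddCommMonoid N]

lemma blk_map {R S : Type u} [Ring R] [Ring S] (g : R →+* S) {a b c : ℕ} (h : a + b = c)
    (x : Matrix (Fin a) (Fin a) R) (y : Matrix (Fin b) (Fin b) R) :
    (blk h (x, y)).map g = blk h (x.map g, y.map g) := by
  show ((fromBlocks x 0 0 y).map g).submatrix _ _ = _
  rw [fromBlocks_map, Matrix.map_zero _ (map_zero g), Matrix.map_zero _ (map_zero g)]
  rfl

noncomputable def Fm0 (f : M →+ N) (hf : Function.Injective f)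
    (hv : ∀ r : N →+ ℕ, r ≠ 0 → 0 < r (f u)) : Ψ u →+* Ψ (f u) where
  toFun a := ⟨fun r => (a.1 (r.comp f)).map (ren f hf), fun r s h1 h2 i j => by
    have e : ∀ r : N →+ ℕ, r ≠ 0 → r.comp f ≠ 0 := fun r h e =>
      (hv r h).ne' (DFunLike.congr_fun e u)
    have := Γ_ren f hf (ρ := r) (a.2 (r.comp f) (s.comp f) (e r h1) (e s h2) i j)
    have e2 := congrFun (congrFun (blk_map (ren f hf) rfl (a.1 (r.comp f)) (a.1 (s.comp f))) i) j
    rw [Matrix.map_apply] at e2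
    rw [e2] at this
    exact this⟩
  map_one' := Subtype.ext (funext fun r => Matrix.map_one _ (map_zero _) (map_one _))
  map_zero' := Subtype.ext (funext fun r => Matrix.map_zero _ (map_zero _))
  map_mul' a b := Subtype.ext (funext fun r => Matrix.map_mul)
  map_add' a b := Subtype.ext (funext fun r => Matrix.map_add _ (map_add _) _ _)

noncomputable def Fm {v : N} (f : M →+ N) (hf : Function.Injective f) (h : f u = v)
    (hv : ∀ r : N →+ ℕ, r ≠ 0 → 0 < r v) : Ψ u →+* Ψ v := by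
  subst h
  exact Fm0 f hf hv

lemma Fm_id (hf) (hv) : Fm (AddMonoidHom.id M) hf (rfl : _ = u) hv = RingHom.id _ := by
  ext a r i j
  exact DFunLike.congr_fun (ren_id hf) _

lemma Fm_comp {Q : Type u} [AddCommMonoid Q] {v : N} {w : Q} (f : M →+ N) (g : N →+ Q) (hf) (hg)
    (h1 : f u = v) (h2 : g v = w) (h3) (h4) (hv) (hw) :
    Fm (g.comp f) h3 h4 hw = (Fm g hg h2 hw).comp (Fm f hf h1 hv) := by
  subst h1 h2
  ext a r i j
  exact DFunLike.congr_fun (ren_comp f hf g hg h3) _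

lemma τ_Fm {v : N} (f : M →+ N) (hf) (h : f u = v) (hv) {ι : Type} [Fintype ι]
    (p : Matrix ι ι (Ψ u)) (r : N →+ ℕ) :
    τ (p.map (Fm f hf h hv)) r = ren f hf (τ p (r.comp f)) := by
  subst h
  simp only [τ, map_sum, trace]
  rfl

end Pool.Agent.H.MP_8d5706_al
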