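import Pool.Agent.H.MP_8d5706_al.D

set_option autoImplicit false

namespace Pool.Agent.H.MP_8d5706_al

open Matrix
open scoped Classical

universe u

variable {M : Type u} [AddCommMonoid M] {u : M}

lemma pos_of (hu : ∀ x : M, ∃ (y : M) (m : ℕ), x + y = m • u) (r : M →+ ℕ) (h : r ≠ 0) :
    0 < r u := by
  by_contra h'
  refine h (AddMonoidHom.ext fun x => ?_)
  obtain ⟨y, m, e⟩ := hu x
  have := congrArg r e
  rw [map_add, map_nsmul, show r u = 0 by omega, smul_zero] at this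
  show r x = 0
  omega

noncomputable def φ {ι : Type} [Fintype ι] (p : Matrix ι ι (Ψ u)) : M :=
  @Classical.epsilon M ⟨0⟩ fun x => ∀ r, τ p r = r x

lemma τ_comm {ι κ : Type} [Fintype ι] [Fintype κ] (x : Matrix ι κ (Ψ u)) (y : Matrix κ ι (Ψ u))
    (r : M →+ ℕ) : τ (x * y) r = τ (y * x) r := by
  have : ∀ {ι κ : Type} [Fintype ι] [Fintype κ] (x : Matrix ι κ (Ψ u)) (y : Matrix κ ι (Ψ u)),
      τ (x * y) r = ∑ i, ∑ j, trace ((x i j).1 r * (y j i).1 r) := fun x y =>
    Finset.sum_congr rfl fun i _ => by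
      rw [← trace_sum, Matrix.mul_apply]
      exact congrArg trace (map_sum (evr u r) _ _)
  rw [this, this, Finset.sum_comm]
  simp only [trace_mul_comm ((x _ _).1 r)]

lemma τ_blk {k l : ℕ} (p : Matrix (Fin k) (Fin k) (Ψ u)) (q : Matrix (Fin l) (Fin l) (Ψ u))
    (r : M →+ ℕ) : τ (reindex finSumFinEquiv finSumFinEquiv (fromBlocks p 0 0 q)) r =
      τ p r + τ q r := by
  simp [τ, Fin.sum_univ_add]

lemma eqv (H : Ok u) {ι κ : Type} [Fintype ι] [Fintype κ] [DecidableEq ι] [DecidableEq κ]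
    {p : Matrix ι ι (Ψ u)} {q : Matrix κ κ (Ψ u)} (hp : p * p = p) (hq : q * q = q)
    (h : ∀ r, τ p r = τ q r) :
    ∃ (x : Matrix ι κ (Ψ u)) (y : Matrix κ ι (Ψ u)), x * y = p ∧ y * x = q := by
  choose X Y h1 h2 using fun r : {r : M →+ ℕ // Basic r} =>
    LA3 (p := p.map (evr u r.1)) (q := q.map (evr u r.1)) (by rw [← Matrix.map_mul, hp])
      (by rw [← Matrix.map_mul, hq]) (h r.1)
  refine T2 (β u) (β_surj H) (β_unit H) hp hq (X := fun i j r => X r i j)
    (Y := fun i j r => Y r i j) ?_ ?_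
  · ext1 i j
    funext r
    rw [Matrix.mul_apply, Finset.sum_apply]
    exact congrFun (congrFun (h1 r) i) j
  · ext1 i j
    funext r
    rw [Matrix.mul_apply, Finset.sum_apply]
    exact congrFun (congrFun (h2 r) i) j

variable {n : ℕ} (e : M ≃+ (Fin n → ℕ))

def bas (i : Fin n) : M := e.symm (Pi.single i 1)

def co (i : Fin n) : M →+ ℕ := (Pi.evalAddMonoidHom (fun _ => ℕ) i).comp e.toAddMonoidHom

lemma co_bas (i j : Fin n) : co e i (bas e j) = if i = j then 1 else 0 := by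
  simp [co, bas, Pi.single_apply]

lemma co_sum (c : Fin n → ℕ) (i : Fin n) : co e i (∑ j, c j • bas e j) = c i := by
  simp [map_sum, co_bas]

lemma co_ext {x y : M} (h : ∀ i, co e i x = co e i y) : x = y := e.injective (funext h)

lemma S0 (x : M) : x = ∑ j, co e j x • bas e j := co_ext e fun i => (co_sum e _ i).symm

lemma bas_ext {r s : M →+ ℕ} (h : ∀ i, r (bas e i) = s (bas e i)) : r = s := by
  ext x
  rw [S0 e x]
  simp only [map_sum, map_nsmul, h]

lemma sum_bas (c : Fin n → ℕ) (i : Fin n) : (∑ j, c j • co e j) (bas e i) = c i := by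
  simp [AddMonoidHom.finsetSum_apply, co_bas]

lemma co_ne (i : Fin n) : co e i ≠ 0 := fun h => by
  simpa [co_bas] using DFunLike.congr_fun h (bas e i)

lemma basic_cases {r : M →+ ℕ} (h : Basic r) : r = 0 ∨ ∃ i, r = co e i := by
  by_cases h0 : ∀ i, r (bas e i) = 0
  · exact .inl (bas_ext e h0)
  obtain ⟨i, hi⟩ := not_forall.1 h0
  have : co e i + ∑ j, (r (bas e j) - co e i (bas e j)) • co e j = r := bas_ext e fun j => by
    rw [AddMonoidHom.add_apply, sum_bas, co_bas]
    split_ifs with h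
    · subst h; omega
    · omega
  by_contra h'
  refine h ⟨_, _, this, co_ne e i, fun h2 => h' (.inr ⟨i, ?_⟩)⟩
  rw [← this, h2, add_zero]

include e

lemma ok_of (hu : ∀ x : M, ∃ (y : M) (m : ℕ), x + y = m • u) : Ok u where
  pos := pos_of hu
  fin r := by
    have : Function.Injective fun (r : M →+ ℕ) i => r (bas e i) := fun r s h =>
      bas_ext e (congrFun h)
    refine ((Set.finite_Iic fun i => r (bas e i)).preimage this.injOn).subset ?_
    rintro r' ⟨s, rfl⟩ i
    exact Nat.le_add_right _ _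

lemma φ_eq {ι : Type} [Fintype ι] {p : Matrix ι ι (Ψ u)} {x : M} (h : ∀ r, τ p r = r x) :
    φ p = x := co_ext e fun i => by
  have := @Classical.epsilon_spec M (fun x => ∀ r, τ p r = r x) ⟨x, h⟩ (co e i)
  rw [h] at this
  exact_mod_cast this.symm

lemma φ_spec {ι : Type} [Fintype ι] [DecidableEq ι] {p : Matrix ι ι (Ψ u)} (hp : p * p = p)
    (r : M →+ ℕ) : τ p r = r (φ p) := by
  obtain ⟨G, hG⟩ := τ_nat hp
  have : ∀ r, τ p r = r (∑ i, G (co e i) • bas e i) := fun r => by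
    have h : ∑ j, r (bas e j) • co e j = r := bas_ext e (sum_bas e fun j => r (bas e j))
    rw [hG]
    congr 1
    conv_lhs => rw [← h]
    simp only [map_sum, map_nsmul, smul_eq_mul, mul_comm]
  rw [φ_eq e this, this]

lemma exch (H : Ok u) (x : Ψ u) :
    ∃ e : Ψ u, e * e = e ∧ (∃ a, e = x * a) ∧ ∃ b, 1 - e = (1 - x) * b := by
  refine T3 (β u) (β_surj H) (β_unit H) (fun x => ?_) (fun g hg => ?_) x
  · choose y hy using fun r => reg (x r)
    exact ⟨y, funext hy⟩
  · choose m _ _ _ _ hm using fun r => LA1 (congrFun hg r : g r * g r = g r)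
    obtain ⟨f, a, b, -⟩ := β_lift H g hg
      (∑ i, (if h : Basic (co e i) then m ⟨_, h⟩ else 0) • bas e i) (by
      rintro ⟨r, h⟩
      obtain rfl | ⟨i, rfl⟩ := basic_cases e h
      · exact (Finset.sum_eq_zero fun i _ => Fin.elim0 i).trans Nat.cast_zero.symm
      · rw [hm, co_sum, dif_pos h])
    exact ⟨f, a, b⟩

lemma φ_surj (H : Ok u) (z : M) :
    ∃ (k : ℕ) (p : Matrix (Fin k) (Fin k) (Ψ u)), p * p = p ∧ φ p = z := by
  suffices ∃ (k : ℕ) (p : Matrix (Fin k) (Fin k) (Ψ u)), p * p = p ∧ ∀ r, τ p r = r z from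
    let ⟨k, p, a, b⟩ := this; ⟨k, p, a, φ_eq e b⟩
  let S : AddSubmonoid M :=
    { carrier := {z | ∃ (k : ℕ) (p : Matrix (Fin k) (Fin k) (Ψ u)), p * p = p ∧ ∀ r, τ p r = r z}
      zero_mem' := ⟨0, 0, by simp, fun r => by simp [τ]⟩
      add_mem' := by
        rintro a b ⟨k, p, a1, a2⟩ ⟨l, q, b1, b2⟩
        refine ⟨k + l, reindex finSumFinEquiv finSumFinEquiv (fromBlocks p 0 0 q), ?_, fun r => ?_⟩
        · simp only [reindex_apply, submatrix_mul_equiv]
          simp [fromBlocks_multiply, a1, b1]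
        · rw [τ_blk, a2, b2]; simp }
  rw [S0 e z]
  refine sum_mem (S := S) fun i _ => nsmul_mem (S := S) ?_ _
  have h : ∀ r : {r : M →+ ℕ // Basic r}, r.1 (bas e i) + (r.1 u - r.1 (bas e i)) = r.1 u := by
    rintro ⟨r, h⟩
    obtain rfl | ⟨j, rfl⟩ := basic_cases e h
    · rfl
    · have := H.pos _ (co_ne e j)
      simp only [co_bas]
      split_ifs <;> omega
  obtain ⟨f, a, -, b⟩ := β_lift H (fun r => blk (h r) (1, 0))
    (funext fun r => (map_mul (blk (R := K M) (h r)) (1, 0) (1, 0)).symm.trans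
      (by rw [Prod.mk_mul_mk, mul_one, mul_zero])) (bas e i)
    fun r => by rw [trace_blk]; simp
  exact ⟨1, of fun _ _ => f, by ext1; simp [Matrix.mul_apply, a], fun r => by simp [τ, b]⟩

end Pool.Agent.H.MP_8d5706_al
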